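import Mathlib
import Pool.Agent.Q284.TS.Hyp
import Pool.Agent.Q284.TS.Odd

/-!
# The 2-adic section conjecture for the hyperelliptic curves `a y² = q₀(x)² - δ q₁(x)²`

Let `k` be a finite extension of `ℚ_p` (the theorem holds for every field of characteristic zero), let
`δ, a ∈ k^*`, and let `a` be not a norm from `k(√δ)`, that is, `(a, δ) = -1` for the Hilbert symbol of
`k`; for every nonsquare `δ` this holds for half of the classes `a`. Let `L` be an extension of `k` of
odd degree, `q₀`, `q₁` coprime polynomials over `L` such that `max (deg q₀, deg q₁)` is even. We prove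
that the fundamental group of the hyperelliptic curve `a y² = q₀(x)² - δ q₁(x)²` over `L`, of every
open subcurve, and of every smooth curve over `L` with a map to it, has no section over `G_L`; if the
degree is odd this is true for the affine curve. So the (weak) section conjecture holds for these
curves over `L`. More generally `f² - δ g² = a y²`, `y ≠ 0`, with functions `f`, `g`, `y` on a curve `U`
over `L` such that `f + g √δ` has even order at all points of `U`, excludes sections for `U`.
Of course the curves have no points over the extensions of odd degree.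

For `p ≠ 2` the nonexistence of sections of projective curves without points over the extensions of
odd degree follows from the theorem of Stix on the index (the index of a `p`-adic curve with a section
is a power of `p`). For `p = 2` that theorem does not apply: the index is a power of two. An example
is `k = ℚ_2`, `δ = a = -1`, that is, all the curves `y² + q₀(x)² + q₁(x)² = 0` over the extensions of
`ℚ_2` of odd degree. There is no condition on the reduction of the curves.

The fundamental group is described through valuations.  Let `U` be a smooth geometrically connected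
curve over `k` with function field `F`, let `Ω` be an algebraic closure of `F`, and let `F_U` be the
maximal extension of `F` inside `Ω` which is unramified over the closed points of `U`, that is, over
their local rings, which are valuation rings of `F`.  Then `π₁(U) = Gal(F_U/F)`, and the map
`π₁(U) → G_k` is the restriction of automorphisms to the algebraic closure of `k` in `Ω`.

Proof. Let `h = f + g √δ`, and let `s` be a section. As the divisor of `h` is even, `w = √h ∈ F_U`. By
Hilbert's theorem 90 there is a constant `c` such that `c w` is fixed by the elements `s(σ)` with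
`σ(√δ) = √δ`. Then `c² = x + z √δ` with `x, z ∈ k`, and the product of `c w` and its conjugate is an
element of the field fixed by `s` whose square is `(x² - δ z²) a y²`. As this field contains no new
constants, `(x² - δ z²) a` is a square in `k`, and `a` is a norm. If `L/k` has odd degree and `a` is a
norm from `L(√δ)` then it is a norm from `k(√δ)` by Springer's theorem. The classes of the divisors
`div(h)/2` are the points of order two of the Jacobian behind this: a section forces the Brauer
obstruction of such a class to vanish.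
-/

set_option autoImplicit false

namespace Pool.Agent.Results.MP_c385f6_ag.NormFormsDyadic

open Polynomial

section definitions

variable (k F Ω : Type) [Field k] [Field F] [Field Ω] [Algebra F Ω] [Algebra k Ω]

/-- The inertia group of the valuation ring `V` of `Ω`, as a subgroup of `Gal(Ω/F)`: the
automorphisms of `Ω` over `F` that map `V` onto itself and act as the identity on its residue
field. -/
noncomputable def inertia (V : ValuationSubring Ω) : Subgroup (Ω ≃ₐ[F] Ω) :=
  (V.inertiaSubgroup F).map (V.decompositionSubgroup F).subtype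

/-- `F_U`, for a set `U` of valuation rings of `F`: the elements of `Ω` fixed by the inertia groups
of all valuation rings `V` of `Ω` with `V ∩ F ∈ U`.  If `Ω` is an algebraic closure of a field `F`
of characteristic zero, this is the maximal extension of `F` in `Ω` unramified over `U`. -/
noncomputable def unramified (U : Set (ValuationSubring F)) : IntermediateField F Ω :=
  ⨅ V : {V : ValuationSubring Ω // V.comap (algebraMap F Ω) ∈ U},
    IntermediateField.fixedField (inertia F Ω V.1)

/-- The map `τ : M → M` acts as `σ : K → K` on the elements that the fields `K` and `M` have in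
common when they are regarded as subfields of `Ω` through `i` and `j`. -/
def ActsAs {K M Ω : Type} [Field K] [Field M] [Field Ω] (i : K →+* Ω) (j : M →+* Ω) (σ : K → K)
    (τ : M → M) : Prop :=
  ∀ c z, j z = i c → j (τ z) = i (σ c)

/-- Let `k ⊆ K ⊆ Ω` and `F ⊆ M ⊆ Ω` be fields.  A splitting of `Gal(M/F) → Gal(K/k)`: a continuous
homomorphism `s` from `Gal(K/k)` to `Gal(M/F)` such that `s(σ)` acts as `σ` on the elements of
`K ∩ M`. -/
structure Splitting (K M : Type) [Field K] [Field M] [Algebra k K] [Algebra F M] [Algebra K Ω]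
    [Algebra M Ω] where
  /-- the homomorphism `Gal(K/k) → Gal(M/F)` -/
  toHom : (K ≃ₐ[k] K) →* (M ≃ₐ[F] M)
  cont : Continuous toHom
  compat : ∀ σ : K ≃ₐ[k] K, ActsAs (algebraMap K Ω) (algebraMap M Ω) σ (toHom σ)

/-- The sections of `π₁(U) = Gal(F_U/F) → G_k`: the continuous homomorphisms `s` from
`G_k = Gal(k̄/k)` to `Gal(F_U/F)`, where `k̄` is the algebraic closure of `k` in `Ω`, such that
`s(σ)` acts as `σ` on the elements of `k̄`. -/
def GaloisSection (U : Set (ValuationSubring F)) : Type :=
  Splitting k F Ω (algebraicClosure k Ω) (unramified F Ω U)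

end definitions

/-- `a` is a norm from `k(√δ)` -/
def IsNorm {k : Type} [Field k] (δ a : k) : Prop := ∃ x z : k, a = x ^ 2 - δ * z ^ 2

/-- The function `f + g r`, `r = √δ`, has even order at all points over the set `U` of valuation
rings of `F`: the order of the square of an element of `F(r)`. -/
def EvenOrders {F Ω : Type} [Field F] [Field Ω] [Algebra F Ω] (U : Set (ValuationSubring F))
    (δ : Ω) (f g : F) : Prop :=
  ∀ r : Ω, r ^ 2 = δ → ∀ V : ValuationSubring Ω, V.comap (algebraMap F Ω) ∈ U →
    ∃ t₁ t₂ : F, algebraMap F Ω t₁ + algebraMap F Ω t₂ * r ≠ 0 ∧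
      (algebraMap F Ω f + algebraMap F Ω g * r) /
        (algebraMap F Ω t₁ + algebraMap F Ω t₂ * r) ^ 2 ∈ V ∧
      (algebraMap F Ω t₁ + algebraMap F Ω t₂ * r) ^ 2 /
        (algebraMap F Ω f + algebraMap F Ω g * r) ∈ V

/-- There are no sections over `G_L` for the curves `U` over `L` with functions `f`, `g`, `y`, `y ≠ 0`,
such that `f² - δ g² = a y²` and `f + g √δ` has even order at all points over `U`. -/
def NormFunctions (L : Type) [Field L] (δ a : L) : Prop :=
  ∀ (F Ω : Type) [Field F] [Field Ω] [Algebra L F] [Algebra F Ω] [Algebra L Ω]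
    [IsScalarTower L F Ω] [IsAlgClosure F Ω] (U : Set (ValuationSubring F)),
    (∀ O ∈ U, ∀ c : L, algebraMap L F c ∈ O) → ∀ f g y : F, y ≠ 0 →
    f ^ 2 - algebraMap L F δ * g ^ 2 = algebraMap L F a * y ^ 2 →
    EvenOrders U (algebraMap L Ω δ) f g → IsEmpty (GaloisSection L F Ω U)

/-- There are no sections over `G_L` for the curves `U` over `L` with function field `F` such that the
curve `a y² = q₀(x)² - δ q₁(x)²` has a point over `F`, where `q₀`, `q₁` are coprime polynomials over
`L` and the maximum of their degrees is even or `x` is regular on `U`. -/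
def HyperellipticCurves (L : Type) [Field L] (δ a : L) : Prop :=
  ∀ q₀ q₁ : L[X], IsCoprime q₀ q₁ →
  ∀ (F Ω : Type) [Field F] [Field Ω] [Algebra L F] [Algebra F Ω] [Algebra L Ω]
    [IsScalarTower L F Ω] [IsAlgClosure F Ω] (U : Set (ValuationSubring F)),
    (∀ O ∈ U, ∀ c : L, algebraMap L F c ∈ O) → ∀ x y : F,
    algebraMap L F a * y ^ 2 = aeval x q₀ ^ 2 - algebraMap L F δ * aeval x q₁ ^ 2 →
    (Even (max q₀.natDegree q₁.natDegree) ∨ ∀ O ∈ U, x ∈ O) → IsEmpty (GaloisSection L F Ω U)

lemma normFunctions {L : Type} [Field L] [CharZero L] {δ a : L} (hδ : δ ≠ 0) (ha : a ≠ 0)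
    (h : ¬ IsNorm δ a) : NormFunctions L δ a := by
  intro F Ω _ _ _ _ _ _ _ U hU f g y hy hN hev
  refine ⟨fun s => h ?_⟩
  have h1 : IsAlgClosed Ω := IsAlgClosure.isAlgClosed F
  have h2 : Algebra.IsAlgebraic F Ω := IsAlgClosure.isAlgebraic
  have hac : IsAlgClosure L (algebraicClosure L Ω) := inferInstance
  have hA : IsAlgClosed (algebraicClosure L Ω) := hac.1
  obtain ⟨rb, hrb⟩ := IsAlgClosed.exists_pow_nat_eq (algebraMap L (algebraicClosure L Ω) δ)
    (n := 2) (by norm_num)
  let G : Pool.Agent.W620.SC.GSection L F Ω U := ⟨s.toHom, s.cont, s.compat⟩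
  obtain ⟨z, hz⟩ : ∃ z : Pool.Agent.W620.SC.unramified F Ω U, z ^ 2 = algebraMap F _ f +
      Pool.Agent.W620.SC.constHom hU rb * algebraMap F _ g := by
    apply Pool.Agent.W623.SecC.exists_root_unramified (k := L) U hU (n := 2) (by norm_num)
    intro _ W hW
    have hr : (rb : Ω) ^ 2 = algebraMap L Ω δ := congrArg Subtype.val hrb
    obtain ⟨t₁, t₂, ht0, ht1, ht2⟩ := hev (rb : Ω) hr W hW
    have hcoe : ((algebraMap F (Pool.Agent.W620.SC.unramified F Ω U) f +
        Pool.Agent.W620.SC.constHom hU rb * algebraMap F _ g :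
          Pool.Agent.W620.SC.unramified F Ω U) : Ω) =
        algebraMap F Ω f + algebraMap F Ω g * rb := by
      rw [mul_comm (algebraMap F Ω g)]
      rfl
    rw [hcoe]
    refine ⟨algebraMap F Ω t₁ + algebraMap F Ω t₂ * rb, ?_, ht0, ht1, ht2⟩
    exact add_mem (algebraMap F (Pool.Agent.W620.SC.unramified F Ω U) t₁).2
      (mul_mem (algebraMap F (Pool.Agent.W620.SC.unramified F Ω U) t₂).2
        (Pool.Agent.W620.SC.constHom hU rb).2)
  exact Pool.Agent.Q284.TS.quad hU G ha hδ hy hN hrb hz

lemma hyperelliptic {L : Type} [Field L] [CharZero L] {δ a : L} (hδ : δ ≠ 0) (ha : a ≠ 0)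
    (h : ¬ IsNorm δ a) : HyperellipticCurves L δ a := by
  intro q₀ q₁ hq F Ω _ _ _ _ _ _ _ U hU x y hxy hdeg
  refine ⟨fun s => h ?_⟩
  have h1 : IsAlgClosed Ω := IsAlgClosure.isAlgClosed F
  have h2 : Algebra.IsAlgebraic F Ω := IsAlgClosure.isAlgebraic
  let G : Pool.Agent.W620.SC.GSection L F Ω U := ⟨s.toHom, s.cont, s.compat⟩
  by_cases hy : y = 0
  · rw [hy, zero_pow two_ne_zero, mul_zero] at hxy
    have hq1 : aeval x q₁ ≠ 0 := by
      intro h3
      rw [h3, zero_pow two_ne_zero, mul_zero, sub_zero] at hxy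
      have h4 : aeval x q₀ = 0 := pow_eq_zero_iff (two_ne_zero) |>.1 hxy.symm
      obtain ⟨u, v, huv⟩ := hq
      have h5 := congrArg (aeval x) huv
      rw [map_add, map_mul, map_mul, h3, h4, mul_zero, mul_zero, add_zero, map_one] at h5
      exact zero_ne_one h5
    obtain ⟨c, hc⟩ := Pool.Agent.Q284.TS.sqF G (f := aeval x q₀ / aeval x q₁) (c := δ) (by
      rw [div_pow, div_eq_iff (pow_ne_zero 2 hq1)]
      linear_combination -hxy)
    have hc0 : c ≠ 0 := by
      rintro rfl
      rw [zero_pow two_ne_zero] at hc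
      exact hδ hc.symm
    refine ⟨(a + 1) / 2, (a - 1) / (2 * c), ?_⟩
    rw [← hc]
    field_simp
    ring
  · exact Pool.Agent.Q284.TS.hyper hU G ha hδ hq hy hxy hdeg

lemma aux4 : ∀ a b : ZMod (2 ^ 2), a ^ 2 + b ^ 2 + 1 ≠ 0 := by decide

lemma aux4' : ∀ a b : ZMod (2 ^ 2), a ^ 2 + b ^ 2 = 0 → 2 * a = 0 ∧ 2 * b = 0 := by decide

lemma even_of {X : ℤ_[2]} (h : 2 * PadicInt.toZModPow 2 X = 0) : ∃ Y, X = 2 * Y := by
  have h1 : 2 * X ∈ RingHom.ker (PadicInt.toZModPow (p := 2) 2) := by
    rw [RingHom.mem_ker, map_mul, map_ofNat]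
    exact h
  rw [PadicInt.ker_toZModPow, Ideal.mem_span_singleton] at h1
  obtain ⟨Y, hY⟩ := h1
  refine ⟨Y, ?_⟩
  have h2 : (2 : ℤ_[2]) ≠ 0 := two_ne_zero
  apply mul_left_cancel₀ h2
  rw [hY]
  push_cast
  ring

lemma sum3 (n : ℕ) : ∀ X Z : ℤ_[2], X ^ 2 + Z ^ 2 + (2 ^ n) ^ 2 ≠ 0 := by
  induction n with
  | zero =>
    intro X Z h
    have h1 := congrArg (PadicInt.toZModPow (p := 2) 2) h
    rw [pow_zero, one_pow, map_add, map_add, map_pow, map_pow, map_one, map_zero] at h1
    exact aux4 _ _ h1
  | succ n ih =>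
    intro X Z h
    have h1 := congrArg (PadicInt.toZModPow (p := 2) 2) h
    have h2 : PadicInt.toZModPow (p := 2) 2 ((2 ^ (n + 1)) ^ 2) = 0 := by
      rw [← RingHom.mem_ker, PadicInt.ker_toZModPow, Ideal.mem_span_singleton]
      refine ⟨(2 ^ n) ^ 2, ?_⟩
      push_cast
      ring
    rw [map_add, map_add, map_pow, map_pow, h2, map_zero, add_zero] at h1
    obtain ⟨h3, h4⟩ := aux4' _ _ h1
    obtain ⟨X', rfl⟩ := even_of h3
    obtain ⟨Z', rfl⟩ := even_of h4
    apply ih X' Z'
    have h5 : (4 : ℤ_[2]) ≠ 0 := by norm_num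
    apply mul_left_cancel₀ h5
    rw [mul_zero, ← h]
    ring

/-- `-1` is not a sum of two squares in `ℚ_2` -/
lemma two_squares : ¬ IsNorm (-1 : ℚ_[2]) (-1) := by
  rintro ⟨x, z, h⟩
  obtain ⟨n, hn⟩ := exists_pow_lt_of_lt_one (show (0 : ℝ) < (‖x‖ + ‖z‖ + 1)⁻¹ by positivity)
    (show (1 / 2 : ℝ) < 1 by norm_num)
  have h2 : ‖(2 : ℚ_[2])‖ = 1 / 2 := by
    have := Padic.norm_p (p := 2)
    norm_num at this ⊢
    exact this
  have key : ∀ t : ℚ_[2], ‖t‖ ≤ ‖x‖ + ‖z‖ + 1 → ‖2 ^ n * t‖ ≤ 1 := by
    intro t ht
    rw [norm_mul, norm_pow, h2]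
    have h3 : (0 : ℝ) < ‖x‖ + ‖z‖ + 1 := by positivity
    calc (1 / 2 : ℝ) ^ n * ‖t‖ ≤ (‖x‖ + ‖z‖ + 1)⁻¹ * (‖x‖ + ‖z‖ + 1) := by
          apply mul_le_mul hn.le ht (norm_nonneg _) (by positivity)
      _ = 1 := inv_mul_cancel₀ h3.ne'
  have hx := key x (by linarith [norm_nonneg z])
  have hz := key z (by linarith [norm_nonneg x])
  obtain ⟨X, hX⟩ : ∃ X : ℤ_[2], (X : ℚ_[2]) = 2 ^ n * x := ⟨⟨_, hx⟩, rfl⟩
  obtain ⟨Z, hZ⟩ : ∃ Z : ℤ_[2], (Z : ℚ_[2]) = 2 ^ n * z := ⟨⟨_, hz⟩, rfl⟩
  apply sum3 n X Z
  apply PadicInt.ext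
  push_cast
  rw [hX, hZ, show ((2 : ℤ_[2]) : ℚ_[2]) = 2 from rfl]
  linear_combination (-(2 : ℚ_[2]) ^ n) ^ 2 * -h

/-- **Theorem.** (1) Let `k` be a field of characteristic zero, `δ, a ∈ k^*`, `a` not a norm from
`k(√δ)`. For all extensions `L/k` of odd degree there are no sections over `G_L` for the curves with
norm functions as in `NormFunctions` and for the curves over hyperelliptic curves as in
`HyperellipticCurves`. (2) An example is `k = ℚ_2`, `δ = a = -1`. -/
theorem result :
    (∀ (k : Type) [Field k] [CharZero k] (δ a : k), δ ≠ 0 → a ≠ 0 → ¬ IsNorm δ a →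
      ∀ (L : Type) [Field L] [Algebra k L] [FiniteDimensional k L],
        Odd (Module.finrank k L) →
        NormFunctions L (algebraMap k L δ) (algebraMap k L a) ∧
        HyperellipticCurves L (algebraMap k L δ) (algebraMap k L a)) ∧
    ¬ IsNorm (-1 : ℚ_[2]) (-1) := by
  refine ⟨?_, two_squares⟩
  intro k _ _ δ a hδ ha h L _ _ _ hodd
  have hL : CharZero L := charZero_of_injective_algebraMap (algebraMap k L).injective
  have hδ' : algebraMap k L δ ≠ 0 := (_root_.map_ne_zero _).2 hδ
  have ha' : algebraMap k L a ≠ 0 := (_root_.map_ne_zero _).2 ha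
  have h' : ¬ IsNorm (algebraMap k L δ) (algebraMap k L a) := fun h1 =>
    h (Pool.Agent.Q284.TS.odd_descent hodd hδ h1)
  exact ⟨normFunctions hδ' ha' h', hyperelliptic hδ' ha' h'⟩

end Pool.Agent.Results.MP_c385f6_ag.NormFormsDyadic
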