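import Pool.Agent.Q61.CN.Virt
import Pool.Agent.Q61.CN.Poly

/-!
# MP_c385f6_ag: virtual sections and norm residues

Let `k` be a finite extension of `ℚ_p` (the theorem holds for every field of characteristic zero), `E/k` a
cyclic extension of degree `d`, ramified or not, and `a ∈ k^*`.  Let `X` be a curve over `k` with a norm
function: `N_{E/k}(h) = a yⁿ`, where `n` is a multiple of `d` and the divisors of the quotients of the
conjugates of `h` are divisible by `n`; for instance a cyclic cover `a yⁿ = N_{E/k}(h)` of an arbitrary curve,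
where the divisor of `h` is disjoint from those of its conjugates, or `a yⁿ = g(x)`, where `g` is the minimal
polynomial of a generator of `E`.

We prove that the degree `[L : k]` of every finite extension `L/k` over which the fundamental group of `X` (or
of an open subcurve, or of a curve which dominates it) has a section is divisible by the order of `a` in the
norm residue group `k^*/N_{E/k}(E^*)`; more precisely `a^[L:k]` is a norm from `E`.  By local class field theory
`k^*/N_{E/k}(E^*)` is cyclic of order `d`; if `a` generates it then `d` divides the degrees of all extensions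
with sections, in particular there are no sections over the extensions of degree not divisible by `d`, and
the (weak) `p`-adic section conjecture is true for these curves over all these extensions.

The earlier result of this kind (`WildCyclicCovers`) is about unramified extensions `E/k` and is given by the
valuation of `a`; for ramified `E/k` the element `a` may be a unit.  The theorem of Stix on the index of
`p`-adic curves with sections gives the part of the statement prime to `p`, but the order of `a` may be a power
of `p`, for instance if `E/k` is wildly ramified.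

The fundamental group is described through valuations.  Let `U` be a smooth geometrically connected
curve over `L` with function field `F`, let `Ω` be an algebraic closure of `F`, and let `F_U` be the
maximal extension of `F` inside `Ω` which is unramified over the closed points of `U`, that is, over
their local rings, which are valuation rings of `F`.  Then `π₁(U) = Gal(F_U/F)`, and the map
`π₁(U) → G_L` is the restriction of automorphisms to the algebraic closure of `L` in `Ω`.

Proof.  Let `s` be a section over `L`.  The compositum `M = E L` is cyclic over `L`, its group is a subgroup of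
`Gal(E/k)`.  The product of the conjugates of `h` over representatives of the cosets of this subgroup is a
function `h'` over `M` with norm `N_{M/L}(h') = a yⁿ`, and the argument of `Pool.Agent.Q61.CN` (Kummer theory for
the quotient of `h'` and its conjugate, the section, and Hilbert's theorem 90 for the field of elements fixed
by the section) shows that `a` is a norm from `M` to `L`.  Then `a^[L:k] = N_{L/k}(a)` is a norm from `M` to
`k`, hence from `E`.
-/

set_option autoImplicit false
set_option maxHeartbeats 400000

namespace Pool.Agent.Results.MP_c385f6_ag.NormResidue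

open Module Polynomial

universe u v w x y

section definitions

variable (k : Type u) (F : Type v) (Ω : Type w) [Field k] [Field F] [Field Ω] [Algebra k F]
  [Algebra F Ω] [Algebra k Ω]

/-- The inertia group of the valuation ring `W` of `Ω`, as a subgroup of `Gal(Ω/F)`: the
automorphisms of `Ω` over `F` that map `W` onto itself and act as the identity on its residue
field. -/
noncomputable def inertia (W : ValuationSubring Ω) : Subgroup (Ω ≃ₐ[F] Ω) :=
  (W.inertiaSubgroup F).map (W.decompositionSubgroup F).subtype

/-- `F_U`, for a set `U` of valuation rings of `F`: the elements of `Ω` fixed by the inertia groups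
of all valuation rings `W` of `Ω` with `W ∩ F ∈ U`.  If `Ω` is an algebraic closure of a field `F`
of characteristic zero, this is the maximal extension of `F` in `Ω` unramified over `U`. -/
noncomputable def unramified (U : Set (ValuationSubring F)) : IntermediateField F Ω :=
  ⨅ W : {W : ValuationSubring Ω // W.comap (algebraMap F Ω) ∈ U},
    IntermediateField.fixedField (inertia F Ω W.1)

/-- The map `τ : M → M` acts as `σ : K → K` on the elements that the fields `K` and `M` have in
common when they are regarded as subfields of `Ω` through `i` and `j`. -/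
def ActsAs {K M Ω : Type*} [Field K] [Field M] [Field Ω] (i : K →+* Ω) (j : M →+* Ω) (σ : K → K)
    (τ : M → M) : Prop :=
  ∀ c z, j z = i c → j (τ z) = i (σ c)

/-- Let `k ⊆ K ⊆ Ω` and `F ⊆ M ⊆ Ω` be fields.  A splitting of `Gal(M/F) → Gal(K/k)`: a continuous
homomorphism `s` from `Gal(K/k)` to `Gal(M/F)` such that `s(σ)` acts as `σ` on the elements of
`K ∩ M`. -/
structure Splitting (K M : Type*) [Field K] [Field M] [Algebra k K] [Algebra F M] [Algebra K Ω]
    [Algebra M Ω] where
  /-- the homomorphism `Gal(K/k) → Gal(M/F)` -/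
  toHom : (K ≃ₐ[k] K) →* (M ≃ₐ[F] M)
  cont : Continuous toHom
  compat : ∀ σ : K ≃ₐ[k] K, ActsAs (algebraMap K Ω) (algebraMap M Ω) σ (toHom σ)

/-- The sections of `π₁(U) = Gal(F_U/F) → G_k`: the continuous homomorphisms `s` from
`G_k = Gal(k̄/k)` to `Gal(F_U/F)`, where `k̄` is the algebraic closure of `k` in `Ω`, such that
`s(σ)` acts as `σ` on the elements of `k̄`. -/
def GaloisSection (U : Set (ValuationSubring F)) : Type w :=
  Splitting k F Ω (algebraicClosure k Ω) (unramified F Ω U)

end definitions

section functions

variable {K : Type u} {E : Type x} {F : Type v} {Ω : Type w} [Field K] [Field E] [Algebra K E]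
  [FiniteDimensional K E] [Field F] [Field Ω] [Algebra F Ω] [Algebra K Ω]

/-- The conjugate `σ(h) = ∑ σ(A_j) x_j` of the function `h = ∑ A_j x_j`, `A_j ∈ E`, `x_j ∈ F`, for an
embedding `σ` of `E` into the algebraically closed field `Ω ⊇ F`. -/
noncomputable def conjugate {r : ℕ} (A : Fin r → E) (x : Fin r → F) (σ : E →ₐ[K] Ω) : Ω :=
  ∑ j, σ (A j) * algebraMap F Ω (x j)

/-- The element `z` is a unit of the valuation ring `W`: it has neither a zero nor a pole at the point
`W`. -/
def UnitAt (W : ValuationSubring Ω) (z : Ω) : Prop := z ≠ 0 ∧ z ∈ W ∧ z⁻¹ ∈ W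

/-- The order of `z` is divisible by `n` at all points over the set `U` of valuation rings of `F`: it is
the order of the `n`-th power of an element of `F`. -/
def OrderDivisible (U : Set (ValuationSubring F)) (n : ℕ) (z : Ω) : Prop :=
  ∀ W : ValuationSubring Ω, W.comap (algebraMap F Ω) ∈ U →
    ∃ t : F, t ≠ 0 ∧ UnitAt W (z / algebraMap F Ω t ^ n)

/-- The function `h = ∑ A_j x_j` is not zero and its norm, the product of its conjugates, is `a yⁿ`. -/
def HasNorm (Ω : Type w) [Field Ω] [Algebra F Ω] [Algebra K Ω] (n : ℕ) (a : K) {r : ℕ}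
    (A : Fin r → E) (x : Fin r → F) (y : F) : Prop :=
  (∀ σ : E →ₐ[K] Ω, conjugate A x σ ≠ 0) ∧
    ∏ σ : E →ₐ[K] Ω, conjugate A x σ = algebraMap K Ω a * algebraMap F Ω y ^ n

/-- The norm `N(H)` of the polynomial `H` over `E`, evaluated at the function `z ∈ F`: the product of the
values at `z` of the conjugates of `H`. -/
noncomputable def normAt (K : Type u) {E : Type x} {F : Type v} (Ω : Type w) [Field K] [Field E]
    [Algebra K E] [FiniteDimensional K E] [Field F] [Field Ω] [Algebra F Ω] [Algebra K Ω]
    (H : Polynomial E) (z : F) : Ω :=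
  ∏ σ : E →ₐ[K] Ω, (H.map (σ : E →+* Ω)).eval (algebraMap F Ω z)

end functions

/-- The divisors of the conjugates of `h = ∑ A_j x_j` are disjoint on `U`: there is no point over `U` at which
two different conjugates of `h` have zeros or poles. -/
def DisjointDivisors (K : Type u) {E : Type x} {F : Type v} (Ω : Type w) [Field K] [Field E]
    [Algebra K E] [Field F] [Field Ω] [Algebra F Ω] [Algebra K Ω] (U : Set (ValuationSubring F))
    {r : ℕ} (A : Fin r → E) (x : Fin r → F) : Prop :=
  ∀ W : ValuationSubring Ω, W.comap (algebraMap F Ω) ∈ U → ∀ σ τ : E →ₐ[K] Ω, σ ≠ τ →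
    UnitAt W (conjugate A x σ) ∨ UnitAt W (conjugate A x τ)

section proof

open Pool.Agent.Q61.NF Pool.Agent.Q61.CN

variable {k : Type u} [Field k] [CharZero k] {E : Type x} [Field E] [Algebra k E]
  [FiniteDimensional k E] [IsGalois k E] [IsCyclic (E ≃ₐ[k] E)] {n : ℕ} (hn : 0 < n)
  (hd : finrank k E ∣ n) (hpar : Even (n / finrank k E * (finrank k E - 1)))
  {L : Type y} [Field L] [Algebra k L] [FiniteDimensional k L]
  {F : Type v} {Ω : Type w} [Field F] [Field Ω] [Algebra L F] [Algebra F Ω] [Algebra L Ω]
  [Algebra k Ω] [IsScalarTower L F Ω] [IsScalarTower k L Ω] [IsAlgClosure F Ω]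
  (U : Set (ValuationSubring F)) (hU : ∀ O ∈ U, ∀ c : L, algebraMap L F c ∈ O) {a : k}

include hn hd hpar hU

lemma main {r : ℕ} (A : Fin r → E) (x : Fin r → F) (y : F) (hN : HasNorm Ω n a A x y)
    (hdiv : ∀ σ τ : E →ₐ[k] Ω, OrdDiv Ω U n (conjugate A x σ) (conjugate A x τ))
    (hs : Nonempty (GaloisSection L F Ω U)) : ∃ e : E, Algebra.norm k e = a ^ finrank k L := by
  obtain ⟨s⟩ := hs
  have hcl : IsAlgClosed Ω := IsAlgClosure.isAlgClosed F
  have halg : Algebra.IsAlgebraic F Ω := IsAlgClosure.isAlgebraic
  let G : Pool.Agent.W620.SC.GSection L F Ω U := ⟨s.toHom, s.cont, s.compat⟩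
  exact norm_of_virtual U hU G E n hn hd hpar a A x y hN.1 hN.2 hdiv

omit hn hd hpar [CharZero k] [FiniteDimensional k E] [IsGalois k E] [IsCyclic (E ≃ₐ[k] E)]
  [IsAlgClosure F Ω] [FiniteDimensional k L] in
lemma consts (W : ValuationSubring Ω) (hW : W.comap (algebraMap F Ω) ∈ U) (c : k) :
    algebraMap k Ω c ∈ W := by
  rw [IsScalarTower.algebraMap_apply k L Ω, IsScalarTower.algebraMap_apply L F Ω]
  exact hU _ hW _

lemma poly (H : E[X]) (hcop : ∀ g : E ≃ₐ[k] E, g ≠ 1 → IsCoprime H (H.map (g : E →+* E)))
    (z y : F) (hy : y ≠ 0)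
    (hN : normAt k Ω H z = algebraMap k Ω a * algebraMap F Ω y ^ n)
    (hs : Nonempty (GaloisSection L F Ω U)) : ∃ e : E, Algebra.norm k e = a ^ finrank k L := by
  classical
  have hcl : IsAlgClosed Ω := IsAlgClosure.isAlgClosed F
  by_cases ha : a = 0
  · exact ⟨0, by rw [Algebra.norm_zero, ha, zero_pow (finrank_pos (R := k) (M := L)).ne']⟩
  have hne : algebraMap k Ω a * algebraMap F Ω y ^ n ≠ 0 :=
    mul_ne_zero ((_root_.map_ne_zero _).2 ha) (pow_ne_zero _ ((_root_.map_ne_zero _).2 hy))
  rw [← hN] at hne
  have h0 : ∀ σ : E →ₐ[k] Ω, (H.map (σ : E →+* Ω)).eval (algebraMap F Ω z) ≠ 0 := fun σ =>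
    (Finset.prod_ne_zero_iff.1 hne) σ (Finset.mem_univ σ)
  have hH : H ≠ 0 := by
    rintro rfl
    have σ : E →ₐ[k] Ω := IsAlgClosed.lift
    exact h0 σ (by rw [Polynomial.map_zero, eval_zero])
  refine main hn hd hpar U hU (fun j : Fin (H.natDegree + 1) => H.coeff j)
    (fun j => z ^ (j : ℕ)) y ⟨?_, ?_⟩ ?_ hs
  · intro σ
    have h1 := val_poly (F := F) (σ : E →+* Ω) H z
    change val (σ : E →+* Ω) _ _ ≠ 0
    rw [h1]
    exact h0 σ
  · rw [← hN]
    exact Finset.prod_congr rfl fun σ _ => val_poly (F := F) (σ : E →+* Ω) H z
  · exact ordDiv_poly U n hn a ha H hH hcop z y (consts U hU) h0 hN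

end proof

/-- `D` divides the order of `a` in `k^*/N_{E/k}(E^*)`: if `a^t` is a norm from `E` then `D` divides `t`. -/
def OrderMultiple (E : Type x) {k : Type u} [Field k] [Field E] [Algebra k E] (D : ℕ) (a : k) : Prop :=
  ∀ t : ℕ, (∃ e : E, Algebra.norm k e = a ^ t) → D ∣ t

/-- The conclusion: `a^[L:k]` is a norm from `E`, and the degree `[L : k]` is divisible by every number `D`
that divides the order of `a` in `k^*/N_{E/k}(E^*)`. -/
def DegreeCondition (E : Type x) {k : Type u} (L : Type y) [Field k] [Field E] [Algebra k E] [Field L]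
    [Algebra k L] (a : k) : Prop :=
  (∃ e : E, Algebra.norm k e = a ^ finrank k L) ∧
    ∀ D : ℕ, OrderMultiple E D a → D ∣ finrank k L

/-- Let `k` be a field of characteristic zero, for instance a finite extension of `ℚ_p`, let `E/k` be a cyclic
extension of degree `d` and `n ≥ 1` a multiple of `d` such that `(n/d)(d-1)` is even, and `a ∈ k`.  Let `L/k`
be a finite extension and `U` a (smooth geometrically connected) curve over `L` with function field `F`, given
by its closed points (any set of valuation rings of `F` over `L`), such that `π₁(U) → G_L` has a section.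
Then `a^[L:k]` is a norm from `E`, and `[L : k]` is divisible by all divisors `D` of the order of `a` in
`k^*/N_{E/k}(E^*)`, in each of the following cases:
(1) there are `h ∈ E ⊗ F` and `y ∈ F` such that `N(h) = a yⁿ` and the divisors on `U` of the quotients of the
conjugates of `h` are divisible by `n`;
(2) there are `h ∈ E ⊗ F` and `y ∈ F` such that `N(h) = a yⁿ` and the divisors on `U` of the conjugates of `h`
are disjoint;
(3) `a yⁿ = N(H)(z)` with `y, z ∈ F`, `y ≠ 0`, where `H` is a polynomial over `E` that is coprime to its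
conjugates;
(4) `a yⁿ = g(z)` with `y, z ∈ F`, `y ≠ 0`, where `g` is the minimal polynomial of an element `θ` with
`E = k(θ)`. -/
theorem result (k : Type u) [Field k] [CharZero k] (E : Type x) [Field E] [Algebra k E]
    [FiniteDimensional k E] [IsGalois k E] [IsCyclic (E ≃ₐ[k] E)] (n : ℕ) (hn : 0 < n)
    (hd : finrank k E ∣ n) (hpar : Even (n / finrank k E * (finrank k E - 1))) (a : k)
    (L : Type y) [Field L] [Algebra k L] [FiniteDimensional k L]
    (F : Type v) (Ω : Type w) [Field F] [Field Ω] [Algebra L F] [Algebra F Ω] [Algebra L Ω]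
    [Algebra k Ω] [IsScalarTower L F Ω] [IsScalarTower k L Ω] [IsAlgClosure F Ω]
    (U : Set (ValuationSubring F)) (hU : ∀ O ∈ U, ∀ c : L, algebraMap L F c ∈ O)
    (hs : Nonempty (GaloisSection L F Ω U)) :
    (∀ (r : ℕ) (A : Fin r → E) (x : Fin r → F) (y : F), HasNorm Ω n a A x y →
      (∀ σ τ : E →ₐ[k] Ω, OrderDivisible U n (conjugate A x σ / conjugate A x τ)) →
        DegreeCondition E L a) ∧
    (∀ (r : ℕ) (A : Fin r → E) (x : Fin r → F) (y : F), HasNorm Ω n a A x y →
      DisjointDivisors k Ω U A x → DegreeCondition E L a) ∧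
    (∀ H : E[X], (∀ g : E ≃ₐ[k] E, g ≠ 1 → IsCoprime H (H.map (g : E →+* E))) →
      ∀ z y : F, y ≠ 0 → normAt k Ω H z = algebraMap k Ω a * algebraMap F Ω y ^ n →
        DegreeCondition E L a) ∧
    (∀ θ : E, Algebra.adjoin k {θ} = ⊤ → ∀ z y : F, y ≠ 0 →
      algebraMap F Ω (aeval z ((minpoly k θ).map (algebraMap k L))) =
        algebraMap k Ω a * algebraMap F Ω y ^ n → DegreeCondition E L a) := by
  have key : (∃ e : E, Algebra.norm k e = a ^ finrank k L) → DegreeCondition E L a :=
    fun h => ⟨h, fun D hD => hD _ h⟩
  have hcl : IsAlgClosed Ω := IsAlgClosure.isAlgClosed F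
  refine ⟨?_, ?_, ?_, ?_⟩
  · intro r A x y hN hdiv
    refine key (main hn hd hpar U hU A x y hN ?_ hs)
    intro σ τ W hW
    obtain ⟨t, ht, h1, h2, h3⟩ := hdiv σ τ W hW
    refine ⟨t, ht, h2, ?_⟩
    rwa [inv_div] at h3
  · intro r A x y hN hdis
    by_cases ha : a = 0
    · exact key ⟨0, by rw [Algebra.norm_zero, ha, zero_pow (finrank_pos (R := k) (M := L)).ne']⟩
    refine key (main hn hd hpar U hU A x y hN ?_ hs)
    exact Pool.Agent.Q61.NF.ordDiv_of_disjoint U n hn a ha A x y (consts U hU) hN.1 hN.2
      (fun W hW σ τ hst => hdis W hW σ τ hst)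
  · intro H hcop z y hy hN
    exact key (poly hn hd hpar U hU H hcop z y hy hN hs)
  · intro θ hθ z y hy hz
    have hint : IsIntegral k θ := Algebra.IsIntegral.isIntegral θ
    let pb := PowerBasis.ofAdjoinEqTop hint hθ
    have hgen : pb.gen = θ := PowerBasis.ofAdjoinEqTop_gen hint hθ
    refine key (poly hn hd hpar U hU (X - C θ) ?_ z y hy ?_ hs)
    · intro g hg
      rw [Polynomial.map_sub, map_X, map_C]
      refine isCoprime_X_sub_C_of_isUnit_sub ?_
      refine IsUnit.mk0 _ (sub_ne_zero.2 fun h => hg ?_)
      have h1 : (g : E →ₐ[k] E) = AlgHom.id k E := pb.algHom_ext (by rw [hgen]; exact h.symm)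
      ext e
      exact DFunLike.congr_fun h1 e
    · have h1 := Pool.Agent.TH377.NC.prod_emb pb (B := Ω) fun t => algebraMap F Ω z - t
      have h2 : normAt k Ω (X - C θ) z = ∏ σ : E →ₐ[k] Ω, (algebraMap F Ω z - σ pb.gen) := by
        unfold normAt
        refine Finset.prod_congr rfl fun σ _ => ?_
        rw [Polynomial.map_sub, map_X, map_C, eval_sub, eval_X, eval_C, hgen]
        rfl
      have h3 : (((minpoly k pb.gen).aroots Ω).map fun t => algebraMap F Ω z - t).prod =
          aeval (algebraMap F Ω z) (minpoly k θ) := by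
        rw [hgen, aroots_def, ← eval_map_algebraMap]
        have h4 := (IsAlgClosed.splits ((minpoly k θ).map (algebraMap k Ω))).eval_eq_prod_roots_of_monic
          ((minpoly.monic hint).map _) (algebraMap F Ω z)
        exact h4.symm
      have h5 : aeval (algebraMap F Ω z) (minpoly k θ) =
          algebraMap F Ω (aeval z ((minpoly k θ).map (algebraMap k L))) := by
        rw [← aeval_algebraMap_apply, aeval_map_algebraMap]
      rw [h2, h1, h3, h5, hz]

end Pool.Agent.Results.MP_c385f6_ag.NormResidue
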