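import Pool.Agent.Q61.NF.Ext
/-!
# MP_c385f6_ag: `p`-adic curves with a function whose norm is a constant times an `n`-th power

Let `k` be a finite extension of `ℚ_p` (or any discretely valued field of characteristic zero with finite
residue field), `A` its valuation ring, `E/k` the unramified extension of degree `d`, and let `D ≥ 1` be such
that `gcd(2, D) D` divides `d`.  The prime `p` may divide `D`.

Let `X` be a smooth geometrically connected curve over `k` with rational functions `h ∈ E ⊗ k(X)` and
`y ∈ k(X)` such that `N_{E/k}(h) = a yⁿ`, where `n` is divisible by `D` and `D` does not divide the valuation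
of `a ∈ k`, and such that the divisors of the quotients of the conjugates of `h` are divisible by `n`.  We show
that the fundamental group of `X`, and of all its open subcurves, has no section over `G_k`; more generally
over `G_L` for all finite extensions `L/k` such that `D` does not divide `v(a) [L : k]`, where `h`, `y` and the
curve may be defined over `L` only.  So the `p`-adic section conjecture holds for these curves: there are
neither sections nor rational points.

The condition on the divisors is satisfied if the divisors of the conjugates of `h` are disjoint.  So the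
theorem applies to all cyclic covers

  `a yⁿ = N_{E/k}(h)`

of all curves `Y` over `k`, of any genus, for instance to `π y^p = N_{E/k}(h)`, where `π` is a uniformiser and
`E/k` is unramified of degree `p`, `p` odd.  If `Y` has a rational point at which `h` takes the value `1`, such
a curve has a point over `k(π^{1/p})`, so that its index is a power of `p`.  By a theorem of Stix the index of
a `p`-adic curve whose fundamental group has a section is a power of `p`; so for `p | D` the theorem is not a
consequence of a condition on the index.

In the starting files of this problem the pro-`ℓ` sections of superelliptic curves are considered for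
`ℓ ≠ p`.

The fundamental group is described through valuations.  Let `U` be a smooth geometrically connected
curve over `k` with function field `F`, let `Ω` be an algebraic closure of `F`, and let `F_U` be the
maximal extension of `F` inside `Ω` which is unramified over the closed points of `U`, that is, over
their local rings, which are valuation rings of `F`.  Then `π₁(U) = Gal(F_U/F)`, and the map
`π₁(U) → G_k` is the restriction of automorphisms to the algebraic closure of `k` in `Ω`.

Proof.  The Kummer argument for conjugate functions is in the starting library (`Pool.Agent.TH377.NC`).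
For a section `s` the quotients of the conjugates of `h`, which are `ℓ`-th powers in `F_U` for the powers
`ℓ | D` of primes, are `ℓ`-th powers of functions fixed by `s`, up to constants of an unramified extension of
`k`; the sum of the valuations of these constants over a cycle of the Frobenius automorphism is `0` modulo
`ℓ`, but it is the valuation of `a`.
-/

set_option autoImplicit false
set_option maxHeartbeats 400000

namespace Pool.Agent.Results.MP_c385f6_ag.WildCyclicCovers

universe u v w x y

section definitions

variable (k : Type u) (F : Type v) (Ω : Type w) [Field k] [Field F] [Field Ω] [Algebra k F]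
  [Algebra F Ω] [Algebra k Ω]

/-- The inertia group of the valuation ring `W` of `Ω`, as a subgroup of `Gal(Ω/F)`: the
automorphisms of `Ω` over `F` that map `W` onto itself and act as the identity on its residue
field. -/
noncomputable def inertia (W : ValuationSubring Ω) : Subgroup (Ω ≃ₐ[F] Ω) :=
  (W.inertiaSubgroup F).map (W.decompositionSubgroup F).subtype

/-- `F_U`, for a set `U` of valuation rings of `F`: the elements of `Ω` fixed by the inertia groups
of all valuation rings `W` of `Ω` with `W ∩ F ∈ U`.  If `Ω` is an algebraic closure of a field `F`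
of characteristic zero, this is the maximal extension of `F` in `Ω` unramified over `U`. -/
noncomputable def unramified (U : Set (ValuationSubring F)) : IntermediateField F Ω :=
  ⨅ W : {W : ValuationSubring Ω // W.comap (algebraMap F Ω) ∈ U},
    IntermediateField.fixedField (inertia F Ω W.1)

/-- The map `τ : M → M` acts as `σ : K → K` on the elements that the fields `K` and `M` have in
common when they are regarded as subfields of `Ω` through `i` and `j`. -/
def ActsAs {K M Ω : Type*} [Field K] [Field M] [Field Ω] (i : K →+* Ω) (j : M →+* Ω) (σ : K → K)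
    (τ : M → M) : Prop :=
  ∀ c z, j z = i c → j (τ z) = i (σ c)

/-- Let `k ⊆ K ⊆ Ω` and `F ⊆ M ⊆ Ω` be fields.  A splitting of `Gal(M/F) → Gal(K/k)`: a continuous
homomorphism `s` from `Gal(K/k)` to `Gal(M/F)` such that `s(σ)` acts as `σ` on the elements of
`K ∩ M`. -/
structure Splitting (K M : Type*) [Field K] [Field M] [Algebra k K] [Algebra F M] [Algebra K Ω]
    [Algebra M Ω] where
  /-- the homomorphism `Gal(K/k) → Gal(M/F)` -/
  toHom : (K ≃ₐ[k] K) →* (M ≃ₐ[F] M)
  cont : Continuous toHom
  compat : ∀ σ : K ≃ₐ[k] K, ActsAs (algebraMap K Ω) (algebraMap M Ω) σ (toHom σ)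

/-- The sections of `π₁(U) = Gal(F_U/F) → G_k`: the continuous homomorphisms `s` from
`G_k = Gal(k̄/k)` to `Gal(F_U/F)`, where `k̄` is the algebraic closure of `k` in `Ω`, such that
`s(σ)` acts as `σ` on the elements of `k̄`. -/
def GaloisSection (U : Set (ValuationSubring F)) : Type w :=
  Splitting k F Ω (algebraicClosure k Ω) (unramified F Ω U)

end definitions

section functions

variable {K : Type u} {E : Type x} {F : Type v} {Ω : Type w} [Field K] [Field E] [Algebra K E]
  [FiniteDimensional K E] [Field F] [Field Ω] [Algebra F Ω] [Algebra K Ω]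

/-- The conjugate `σ(h) = ∑ σ(A_j) x_j` of the function `h = ∑ A_j x_j`, `A_j ∈ E`, `x_j ∈ F`, for an
embedding `σ` of `E` into the algebraically closed field `Ω ⊇ F`. -/
noncomputable def conjugate {r : ℕ} (A : Fin r → E) (x : Fin r → F) (σ : E →ₐ[K] Ω) : Ω :=
  ∑ j, σ (A j) * algebraMap F Ω (x j)

/-- The element `z` is a unit of the valuation ring `W`: it has neither a zero nor a pole at the point
`W`. -/
def UnitAt (W : ValuationSubring Ω) (z : Ω) : Prop := z ≠ 0 ∧ z ∈ W ∧ z⁻¹ ∈ W

/-- The order of `z` is divisible by `n` at all points over the set `U` of valuation rings of `F`: it is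
the order of the `n`-th power of an element of `F`. -/
def OrderDivisible (U : Set (ValuationSubring F)) (n : ℕ) (z : Ω) : Prop :=
  ∀ W : ValuationSubring Ω, W.comap (algebraMap F Ω) ∈ U →
    ∃ t : F, t ≠ 0 ∧ UnitAt W (z / algebraMap F Ω t ^ n)

/-- The function `h = ∑ A_j x_j` is not zero and its norm, the product of its conjugates, is `a yⁿ`. -/
def HasNorm (Ω : Type w) [Field Ω] [Algebra F Ω] [Algebra K Ω] (n : ℕ) (a : K) {r : ℕ}
    (A : Fin r → E) (x : Fin r → F) (y : F) : Prop :=
  (∀ σ : E →ₐ[K] Ω, conjugate A x σ ≠ 0) ∧
    ∏ σ : E →ₐ[K] Ω, conjugate A x σ = algebraMap K Ω a * algebraMap F Ω y ^ n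

end functions

/-- The divisors of the conjugates of `h = ∑ A_j x_j` are disjoint on `U`: there is no point over `U` at which
two different conjugates of `h` have zeros or poles. -/
def DisjointDivisors (K : Type u) {E : Type x} {F : Type v} (Ω : Type w) [Field K] [Field E]
    [Algebra K E] [Field F] [Field Ω] [Algebra F Ω] [Algebra K Ω] (U : Set (ValuationSubring F))
    {r : ℕ} (A : Fin r → E) (x : Fin r → F) : Prop :=
  ∀ W : ValuationSubring Ω, W.comap (algebraMap F Ω) ∈ U → ∀ σ τ : E →ₐ[K] Ω, σ ≠ τ →
    UnitAt W (conjugate A x σ) ∨ UnitAt W (conjugate A x τ)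

/-- The assertion for the extension `E/K` and the numbers `D`, `a` and `m`: for all finite extensions `L` of
`K` such that `D` does not divide `m [L : K]`, all `n ≥ 1` divisible by `D`, all fields `F` over `L`
(function fields of curves or varieties `X` over `L`) with algebraic closure `Ω`, and all sets `U` of
valuation rings of `F` over `L` (points of `X`): if there are functions `h = ∑ A_j x_j` and `y` with
`N(h) = a yⁿ` such that the orders of all quotients `σ(h)/τ(h)` at the points of `U` are divisible by `n`,
then `π₁(U) → G_L` has no section. -/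
def NoSections {K : Type u} (E : Type x) [Field K] [Field E] [Algebra K E] [FiniteDimensional K E]
    (D : ℕ) (a : K) (m : ℤ) : Prop :=
  ∀ (L : Type y) [Field L] [Algebra K L] [FiniteDimensional K L],
    ¬ (D : ℤ) ∣ m * Module.finrank K L → ∀ n : ℕ, 0 < n → D ∣ n →
      ∀ (F : Type v) (Ω : Type w) [Field F] [Field Ω] [Algebra L F] [Algebra F Ω] [Algebra L Ω]
        [Algebra K Ω] [IsScalarTower L F Ω] [IsScalarTower K L Ω] [IsAlgClosure F Ω]
        (U : Set (ValuationSubring F)), (∀ O ∈ U, ∀ c : L, algebraMap L F c ∈ O) →
        ∀ (r : ℕ) (A : Fin r → E) (x : Fin r → F) (y : F), HasNorm Ω n a A x y →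
          (∀ σ τ : E →ₐ[K] Ω, OrderDivisible U n (conjugate A x σ / conjugate A x τ)) →
            IsEmpty (GaloisSection L F Ω U)

section proof

open Pool.Agent.TH377.NC Polynomial IsDedekindDomain Pool.Agent.TH377.LocG Pool.Agent.TH120.Sec
  Pool.Agent.W620.SC Pool.Agent.Q61.NF

lemma toSec {k : Type u} {F : Type v} {Ω : Type w} [Field k] [Field F] [Field Ω] [Algebra k F]
    [Algebra F Ω] [Algebra k Ω] (U : Set (ValuationSubring F))
    (h : IsEmpty (Pool.Agent.W620.SC.GSection k F Ω U)) : IsEmpty (GaloisSection k F Ω U) :=
  ⟨fun s => h.false ⟨s.toHom, s.cont, s.compat⟩⟩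

lemma ordDiv {F : Type v} {Ω : Type w} [Field F] [Field Ω] [Algebra F Ω]
    {U : Set (ValuationSubring F)} {n : ℕ} {a b : Ω} (h : OrderDivisible U n (a / b)) :
    OrdDiv Ω U n a b := by
  intro W hW
  obtain ⟨t, ht, h1, h2, h3⟩ := h W hW
  refine ⟨t, ht, h2, ?_⟩
  rwa [inv_div] at h3

/-- a discrete valuation ring gives the assertions -/
theorem of_dvr {K : Type u} [Field K] [CharZero K] {E : Type x} [Field E] [Algebra K E]
    [FiniteDimensional K E] {R : Type y} [CommRing R] [IsDomain R] [IsDiscreteValuationRing R]
    [Algebra R K] [IsFractionRing R K] (pb : PowerBasis K E) (g : R[X]) (hg : g.Monic)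
    (hgK : g.map (algebraMap R K) = minpoly K pb.gen)
    (hs : (g.map (IsLocalRing.residue R)).Separable) (D : ℕ) (hD : D ≠ 0)
    (hσ : FactorDiv (Nat.gcd 2 D * D) (g.map (IsLocalRing.residue R))) (ϖ0 t0 : R)
    (hϖ0 : Irreducible ϖ0) (ht0 : IsUnit t0) (m : ℤ) (a : K)
    (ha : a = algebraMap R K t0 * algebraMap R K ϖ0 ^ m) :
    NoSections.{u, v, w, x, y} E D a m := by
  intro L _ _ _ hL n hn0 hDn F Ω _ _ _ _ _ _ _ _ _ U hU r A x y hN hdiv
  let _ : Algebra R L := ((algebraMap K L).comp (algebraMap R K)).toAlgebra
  have hstR : IsScalarTower R K L := IsScalarTower.of_algebraMap_eq (fun _ => rfl)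
  obtain ⟨ℓ, hℓ0, hℓD, B, _, _, _, _, hfr, f, hf, hfK, hfs, hfd, ϖ, t, m', hϖ, ht, hm', hat⟩ :=
    dvr_data (k := K) (L := L) g hg hs D hD hσ ϖ0 t0 hϖ0 ht0 m hL
  have hfL : f.map (algebraMap B L) = (minpoly K pb.gen).map (algebraMap K L) := by
    rw [hfK, ← hgK, Polynomial.map_map, ← IsScalarTower.algebraMap_eq R K L]
  have haL : algebraMap K L a = algebraMap B L t * algebraMap B L ϖ ^ m' := by
    rw [← hat, ha, map_mul, map_zpow₀]
    rfl
  refine toSec U (of_data pb ℓ hℓ0 f hf hfL hfs hfd ϖ t m' hϖ ht hm' _ haL F Ω U hU n
    (hℓD.trans hDn) A x y ⟨hN.1, hN.2, fun σ τ => ordDiv (hdiv σ τ)⟩)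

end proof

/-- (1) Let `A` be a discrete valuation ring of characteristic zero with finite residue field and field of
fractions `k`, for instance the valuation ring of a finite extension `k` of `ℚ_p`.  Let `E = k(θ)` be the
unramified extension of degree `d`: `θ` is a root of a monic polynomial `g ∈ A[T]` of degree `d` with
irreducible reduction.  Let `D ≥ 1` be such that `gcd(2, D) D` divides `d` (`D` may be divisible by the
residue characteristic), and let `a ∈ k` have the valuation `m`.  Then for all finite extensions `L` of `k`
such that `D` does not divide `m [L : k]`, all `n ≥ 1` divisible by `D`, and all (smooth geometrically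
connected) curves `U` over `L` with functions `h ∈ E ⊗ L(U)`, `y ∈ L(U)` such that `N(h) = a yⁿ` and the
divisors on `U` of the quotients of the conjugates of `h` are divisible by `n`, the fundamental group of `U`
has no section over `G_L`.
(2) The condition on the divisors is satisfied if the divisors on `U` of the conjugates of `h` are
disjoint; so (1) applies to the cyclic covers `a yⁿ = N(h)` of all curves over `L`, for all functions `h`
whose divisor has no point in common with those of its conjugates. -/
theorem result (A : Type y) [CommRing A] [IsDomain A] [IsDiscreteValuationRing A]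
    [Finite (IsLocalRing.ResidueField A)] (k : Type u) [Field k] [CharZero k] [Algebra A k]
    [IsFractionRing A k] (E : Type x) [Field E] [Algebra k E] [FiniteDimensional k E]
    (θ : E) (hθ : Algebra.adjoin k {θ} = ⊤) (g : Polynomial A) (hg : g.Monic)
    (hgk : g.map (algebraMap A k) = minpoly k θ)
    (hirr : Irreducible (g.map (IsLocalRing.residue A))) (D : ℕ) (hD : D ≠ 0)
    (hd : Nat.gcd 2 D * D ∣ g.natDegree) :
    (∀ (ϖ t : A) (m : ℤ) (a : k), Irreducible ϖ → IsUnit t →
      a = algebraMap A k t * algebraMap A k ϖ ^ m → NoSections.{u, v, w, x, y} E D a m) ∧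
    (∀ (F : Type v) (Ω : Type w) [Field F] [Field Ω] [Algebra F Ω] [Algebra k Ω]
      (U : Set (ValuationSubring F)) (n : ℕ) (a : k) (r : ℕ) (A : Fin r → E) (x : Fin r → F) (y : F),
      (∀ W : ValuationSubring Ω, W.comap (algebraMap F Ω) ∈ U → ∀ c : k, algebraMap k Ω c ∈ W) →
        0 < n → a ≠ 0 → HasNorm Ω n a A x y → DisjointDivisors k Ω U A x →
          ∀ σ τ : E →ₐ[k] Ω, OrderDivisible U n (conjugate A x σ / conjugate A x τ)) := by
  refine ⟨?_, ?_⟩
  · intro ϖ t m a hϖ ht ha
    have hint : IsIntegral k θ := Algebra.IsIntegral.isIntegral θ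
    have hs : (g.map (IsLocalRing.residue A)).Separable :=
      PerfectField.separable_of_irreducible hirr
    refine of_dvr (PowerBasis.ofAdjoinEqTop hint hθ) g hg
      (by rw [PowerBasis.ofAdjoinEqTop_gen]; exact hgk) hs D hD ?_ ϖ t hϖ ht m a ha
    intro q hq hqg
    have h1 : Associated q (g.map (IsLocalRing.residue A)) :=
      (hq.dvd_irreducible_iff_associated hirr).1 hqg
    rw [Polynomial.natDegree_eq_of_degree_eq (Polynomial.degree_eq_degree_of_associated h1),
      hg.natDegree_map]
    exact hd
  · intro F Ω _ _ _ _ U n a r A x y hUK hn ha hN hdis σ τ W hW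
    obtain ⟨t, ht, h1, h2⟩ := Pool.Agent.Q61.NF.ordDiv_of_disjoint U n hn a ha A x y hUK hN.1 hN.2
      (fun W hW σ τ hst => hdis W hW σ τ hst) σ τ W hW
    refine ⟨t, ht, ?_, h1, ?_⟩
    · exact div_ne_zero (div_ne_zero (hN.1 σ) (hN.1 τ))
        (pow_ne_zero _ ((_root_.map_ne_zero _).2 ht))
    · rw [inv_div]
      exact h2

end Pool.Agent.Results.MP_c385f6_ag.WildCyclicCovers
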